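import Mathlib

set_option autoImplicit false

namespace Pool.Agent.Results.MP_ed087a_al.NotSmooth

open Filter Topology

/-- A map `f : E → F` between real topological vector spaces is of class `C^k` in the sense of
Bastiani: it is continuous and, if `k ≥ 1`, all directional derivatives
`df (x, v) = lim_{t → 0} (f (x + t v) - f x) / t` exist and `df : E × E → F` is of class
`C^{k-1}`. -/
def BC : ℕ → ∀ (E F : Type) [AddCommGroup E] [Module ℝ E] [TopologicalSpace E]
    [AddCommGroup F] [Module ℝ F] [TopologicalSpace F], (E → F) → Prop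
  | 0, _, _, _, _, _, _, _, _, f => Continuous f
  | (k + 1), E, F, _, _, _, _, _, _, f => Continuous f ∧ ∃ df : E × E → F,
      (∀ x v : E, Tendsto (fun t : ℝ => t⁻¹ • (f (x + t • v) - f x)) (𝓝[≠] 0) (𝓝 (df (x, v)))) ∧
      BC k (E × E) F df

/-- A Lie group whose underlying manifold is a real Hausdorff locally convex space `E` itself
(with the single chart `id : E → E`): a group structure on `E` for which multiplication and
inversion are smooth in the sense of Bastiani. -/
structure ChartLieGroup where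
  /-- the model space, which is also the underlying manifold -/
  E : Type
  [grp : AddCommGroup E]
  [mod : Module ℝ E]
  [top : TopologicalSpace E]
  [topAdd : IsTopologicalAddGroup E]
  [contSMul : ContinuousSMul ℝ E]
  [locConv : LocallyConvexSpace ℝ E]
  [hausdorff : T2Space E]
  /-- the group multiplication -/
  mul : E → E → E
  /-- the neutral element -/
  one : E
  /-- the inversion -/
  inv : E → E
  mul_assoc : ∀ x y z, mul (mul x y) z = mul x (mul y z)
  one_mul : ∀ x, mul one x = x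
  mul_one : ∀ x, mul x one = x
  inv_mul : ∀ x, mul (inv x) x = one
  smooth_mul : ∀ k, BC k (E × E) E (fun p => mul p.1 p.2)
  smooth_inv : ∀ k, BC k E E inv

attribute [instance] ChartLieGroup.grp ChartLieGroup.mod ChartLieGroup.top ChartLieGroup.topAdd
  ChartLieGroup.contSMul ChartLieGroup.locConv ChartLieGroup.hausdorff

section Calc
variable {E F G : Type} [AddCommGroup E] [Module ℝ E] [TopologicalSpace E]
  [AddCommGroup F] [Module ℝ F] [TopologicalSpace F]
  [AddCommGroup G] [Module ℝ G] [TopologicalSpace G]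

lemma bc_cont {k : ℕ} {f : E → F} (h : BC k E F f) : Continuous f := by
  cases k with
  | zero => exact h
  | succ k => exact h.1

lemma bc_mono {k : ℕ} {f : E → F} (h : BC (k + 1) E F f) : BC k E F f := by
  induction k generalizing E with
  | zero => exact h.1
  | succ k ih =>
    obtain ⟨h1, df, h2, h3⟩ := h
    exact ⟨h1, df, h2, ih h3⟩

lemma bc_lin (k : ℕ) (L : E →L[ℝ] F) : BC k E F L := by
  induction k generalizing E with
  | zero => exact L.continuous
  | succ k ih =>
    refine ⟨L.continuous, L.comp (ContinuousLinearMap.snd ℝ E E), ?_, ih _⟩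
    intro x v
    apply Tendsto.congr' _ tendsto_const_nhds
    filter_upwards [self_mem_nhdsWithin] with t ht
    have ht' : t ≠ 0 := ht
    rw [map_add, map_smul, add_sub_cancel_left, smul_smul, inv_mul_cancel₀ ht', one_smul]
    rfl

lemma bc_comp_lin {k : ℕ} {f : F → G} (h : BC k F G f) (L : E →L[ℝ] F) :
    BC k E G (fun x => f (L x)) := by
  induction k generalizing E F with
  | zero => exact (h : Continuous f).comp L.continuous
  | succ k ih =>
    obtain ⟨h1, df, h2, h3⟩ := h
    refine ⟨h1.comp L.continuous, fun p => df (L p.1, L p.2), ?_, ih h3 (L.prodMap L)⟩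
    intro x v
    simp only [map_add, map_smul]
    exact h2 (L x) (L v)

lemma bc_lin_comp {k : ℕ} {f : E → F} (h : BC k E F f) (L : F →L[ℝ] G) :
    BC k E G (fun x => L (f x)) := by
  induction k generalizing E with
  | zero => exact L.continuous.comp (h : Continuous f)
  | succ k ih =>
    obtain ⟨h1, df, h2, h3⟩ := h
    refine ⟨L.continuous.comp h1, fun p => L (df p), ?_, ih h3⟩
    intro x v
    have := (L.continuous.tendsto _).comp (h2 x v)
    refine Tendsto.congr (fun t => ?_) this
    simp only [Function.comp_apply, map_smul, map_sub]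

lemma bc_add [ContinuousAdd F] {k : ℕ} {f g : E → F} (hf : BC k E F f) (hg : BC k E F g) :
    BC k E F (fun x => f x + g x) := by
  induction k generalizing E with
  | zero => exact (hf : Continuous f).add (hg : Continuous g)
  | succ k ih =>
    obtain ⟨h1, df, h2, h3⟩ := hf
    obtain ⟨h1', dg, h2', h3'⟩ := hg
    refine ⟨h1.add h1', fun p => df p + dg p, ?_, ih h3 h3'⟩
    intro x v
    refine Tendsto.congr (fun t => ?_) ((h2 x v).add (h2' x v))
    rw [← smul_add]
    congr 1
    exact (add_sub_add_comm _ _ _ _).symm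

lemma bc_smul [ContinuousAdd E] [ContinuousSMul ℝ E] [ContinuousAdd F] [ContinuousSMul ℝ F]
    {k : ℕ} {l : E → ℝ} {f : E → F}
    (hl : BC k E ℝ l) (hf : BC k E F f) : BC k E F (fun x => l x • f x) := by
  induction k generalizing E with
  | zero => exact (hl : Continuous l).smul (hf : Continuous f)
  | succ k ih =>
    have hl0 := bc_mono hl
    have hf0 := bc_mono hf
    obtain ⟨h1, dl, h2, h3⟩ := hl
    obtain ⟨h1', df, h2', h3'⟩ := hf
    refine ⟨h1.smul h1', fun p => dl p • f p.1 + l p.1 • df p, ?_, ?_⟩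
    · intro x v
      have hx : Tendsto (fun t : ℝ => f (x + t • v)) (𝓝[≠] 0) (𝓝 (f x)) := by
        have hc : Continuous (fun t : ℝ => f (x + t • v)) :=
          h1'.comp (continuous_const.add (continuous_id.smul continuous_const))
        have := hc.tendsto 0
        rw [zero_smul, add_zero] at this
        exact this.mono_left nhdsWithin_le_nhds
      have h4 := ((h2 x v).smul hx).add ((tendsto_const_nhds (x := l x)).smul (h2' x v))
      refine Tendsto.congr (fun t => ?_) h4
      simp only [smul_eq_mul, smul_sub, mul_sub, sub_smul, mul_smul]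
      rw [smul_comm (l x) t⁻¹ (f (x + t • v)), smul_comm (l x) t⁻¹ (f x)]
      abel
    · exact bc_add (ih h3 (bc_comp_lin hf0 (ContinuousLinearMap.fst ℝ E E)))
        (ih (bc_comp_lin hl0 (ContinuousLinearMap.fst ℝ E E)) h3')

end Calc

/-- sum of the coefficient polynomials -/
noncomputable def sg : (ℝ →₀ Polynomial ℝ) →ₗ[ℝ] Polynomial ℝ :=
  Finsupp.lsum ℝ (fun _ => LinearMap.id)

/-- the exponential polynomial -/
noncomputable def ph : (ℝ →₀ Polynomial ℝ) →ₗ[ℝ] (ℝ → ℝ) :=
  Finsupp.lsum ℝ (fun t =>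
    { toFun := fun q x => q.eval x * Real.exp (x * t)
      map_add' := by
        intro p q
        funext x
        simp [add_mul]
      map_smul' := by
        intro c p
        funext x
        simp [mul_assoc] })

lemma ph_single (t : ℝ) (q : Polynomial ℝ) (x : ℝ) :
    ph (Finsupp.single t q) x = q.eval x * Real.exp (x * t) := by
  unfold ph
  rw [Finsupp.lsum_single]
  rfl

lemma ph_apply (p : ℝ →₀ Polynomial ℝ) (x : ℝ) :
    ph p x = ∑ t ∈ p.support, (p t).eval x * Real.exp (x * t) := by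
  simp [ph, Finsupp.sum]

lemma sg_apply (p : ℝ →₀ Polynomial ℝ) : sg p = ∑ t ∈ p.support, p t := by
  simp [sg, Finsupp.sum]

lemma sg_single (t : ℝ) (q : Polynomial ℝ) : sg (Finsupp.single t q) = q := by
  simp [sg]

/-- the model space of the counterexample -/
noncomputable def E0 : Submodule ℝ (ℝ → ℝ) := (LinearMap.ker sg).map ph

lemma ph_inj (p : ℝ →₀ Polynomial ℝ) (h : ph p = 0) : p = 0 := by
  by_contra hp
  have hne : p.support.Nonempty := Finsupp.support_nonempty_iff.2 hp
  obtain ⟨t, ht⟩ : ∃ t, t = p.support.max' hne := ⟨_, rfl⟩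
  have htm : t ∈ p.support := by rw [ht]; exact Finset.max'_mem _ _
  have hlt : ∀ r ∈ p.support.erase t, r < t := by
    intro r hr
    rw [Finset.mem_erase] at hr
    have := Finset.le_max' p.support r hr.2
    rw [← ht] at this
    exact lt_of_le_of_ne this hr.1
  have h1 : ∀ x : ℝ, (p t).eval x = - ∑ r ∈ p.support.erase t,
      (p r).eval x / Real.exp (x * (t - r)) := by
    intro x
    have h2 := congrFun h x
    rw [ph_apply, ← Finset.add_sum_erase _ _ htm, Pi.zero_apply] at h2
    have h3 : (p t).eval x * Real.exp (x * t) = - ∑ r ∈ p.support.erase t,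
        (p r).eval x * Real.exp (x * r) := by linarith
    have h4 : Real.exp (x * t) ≠ 0 := (Real.exp_pos _).ne'
    rw [← mul_left_inj' h4, h3, neg_mul, Finset.sum_mul]
    congr 1
    refine Finset.sum_congr rfl (fun r _ => ?_)
    rw [div_mul_eq_mul_div, eq_div_iff (Real.exp_pos _).ne', mul_assoc, ← Real.exp_add]
    congr 2
    ring
  have h2 : Tendsto (fun x => (p t).eval x) atTop (𝓝 0) := by
    have h3 : Tendsto (fun x : ℝ => - ∑ r ∈ p.support.erase t,
        (p r).eval x / Real.exp (x * (t - r))) atTop (𝓝 (- ∑ r ∈ p.support.erase t, (0 : ℝ))) := by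
      apply Tendsto.neg
      apply tendsto_finsetSum
      intro r hr
      have hc : 0 < t - r := sub_pos.2 (hlt r hr)
      have h4 := ((p r).comp (Polynomial.C (t - r)⁻¹ * Polynomial.X)).tendsto_div_exp_atTop
      have h5 : Tendsto (fun x : ℝ => x * (t - r)) atTop atTop :=
        tendsto_id.atTop_mul_const hc
      refine Tendsto.congr (fun x => ?_) (h4.comp h5)
      simp only [Function.comp_apply, Polynomial.eval_comp, Polynomial.eval_mul,
        Polynomial.eval_C, Polynomial.eval_X]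
      congr 2
      field_simp
    rw [Finset.sum_const_zero, neg_zero] at h3
    exact Tendsto.congr (fun x => (h1 x).symm) h3
  have h3 := (Polynomial.tendsto_nhds_iff (p t)).1 h2
  exact (Finsupp.mem_support_iff.1 htm) (Polynomial.leadingCoeff_eq_zero.1 h3.1)

lemma id_not_mem : (fun x : ℝ => x) ∉ E0 := by
  rintro ⟨p, hp, hpe⟩
  have h1 : ph (p - Finsupp.single 0 Polynomial.X) = 0 := by
    rw [map_sub, hpe]
    funext x
    rw [Pi.sub_apply, ph_single]
    simp
  have h2 := ph_inj _ h1
  have h3 : p = Finsupp.single 0 Polynomial.X := sub_eq_zero.1 h2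
  have h4 : sg p = 0 := hp
  rw [h3, sg_single] at h4
  exact Polynomial.X_ne_zero h4

lemma diff_mem (t : ℝ) : (fun x : ℝ => Real.exp (x * t) - 1) ∈ E0 := by
  refine ⟨Finsupp.single t 1 - Finsupp.single 0 1, ?_, ?_⟩
  · show sg _ = 0
    rw [map_sub, sg_single, sg_single, sub_self]
  · rw [map_sub]
    funext x
    rw [Pi.sub_apply, ph_single, ph_single]
    simp

/-- multiplication of all coefficients by `X` -/
noncomputable def mulX : (ℝ →₀ Polynomial ℝ) →ₗ[ℝ] (ℝ →₀ Polynomial ℝ) :=
  Finsupp.mapRange.linearMap (LinearMap.mulLeft ℝ Polynomial.X)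

lemma ph_mulX (p : ℝ →₀ Polynomial ℝ) (x : ℝ) : ph (mulX p) x = x * ph p x := by
  induction p using Finsupp.induction_linear with
  | zero => simp
  | add f g hf hg => rw [map_add, map_add, map_add, Pi.add_apply, Pi.add_apply, hf, hg, mul_add]
  | single a b =>
    simp only [mulX, Finsupp.mapRange.linearMap_apply, Finsupp.mapRange_single, ph_single,
      LinearMap.mulLeft_apply, Polynomial.eval_mul, Polynomial.eval_X]
    ring

lemma sg_mulX (p : ℝ →₀ Polynomial ℝ) : sg (mulX p) = Polynomial.X * sg p := by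
  induction p using Finsupp.induction_linear with
  | zero => simp
  | add f g hf hg => rw [map_add, map_add, map_add, hf, hg, mul_add]
  | single a b =>
    simp only [mulX, Finsupp.mapRange.linearMap_apply, Finsupp.mapRange_single, sg_single,
      LinearMap.mulLeft_apply]

lemma mulX_mem (z : ℝ → ℝ) (hz : z ∈ E0) : (fun x : ℝ => x * z x) ∈ E0 := by
  obtain ⟨p, hp, rfl⟩ := hz
  refine ⟨mulX p, ?_, ?_⟩
  · show sg _ = 0
    rw [sg_mulX, show sg p = 0 from hp, mul_zero]
  · funext x
    exact ph_mulX p x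

/-- shift of the exponents by `s` -/
noncomputable def shf (s : ℝ) : (ℝ →₀ Polynomial ℝ) →ₗ[ℝ] (ℝ →₀ Polynomial ℝ) :=
  Finsupp.lmapDomain (Polynomial ℝ) ℝ (fun t => t + s)

lemma ph_shf (s : ℝ) (p : ℝ →₀ Polynomial ℝ) (x : ℝ) :
    ph (shf s p) x = Real.exp (x * s) * ph p x := by
  induction p using Finsupp.induction_linear with
  | zero => simp
  | add f g hf hg => rw [map_add, map_add, map_add, Pi.add_apply, Pi.add_apply, hf, hg, mul_add]
  | single a b =>
    simp only [shf, Finsupp.lmapDomain_apply, Finsupp.mapDomain_single, ph_single]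
    rw [mul_add, Real.exp_add]
    ring

lemma sg_shf (s : ℝ) (p : ℝ →₀ Polynomial ℝ) : sg (shf s p) = sg p := by
  induction p using Finsupp.induction_linear with
  | zero => simp
  | add f g hf hg => rw [map_add, map_add, map_add, hf, hg]
  | single a b =>
    simp only [shf, Finsupp.lmapDomain_apply, Finsupp.mapDomain_single, sg_single]

lemma shf_mem (s : ℝ) (z : ℝ → ℝ) (hz : z ∈ E0) : (fun x : ℝ => Real.exp (x * s) * z x) ∈ E0 := by
  obtain ⟨p, hp, rfl⟩ := hz
  refine ⟨shf s p, ?_, ?_⟩
  · show sg _ = 0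
    rw [sg_shf]; exact hp
  · funext x
    exact ph_shf s p x

/-- the generator `z ↦ x z` -/
noncomputable def A : E0 →L[ℝ] E0 where
  toFun z := ⟨fun x => x * (z : ℝ → ℝ) x, mulX_mem _ z.2⟩
  map_add' := by
    intro y z
    ext x
    show x * (_ + _) = x * _ + x * _
    ring
  map_smul' := by
    intro c z
    ext x
    show x * (c * _) = c * (x * _)
    ring
  cont := by
    refine Continuous.subtype_mk ?_ _
    refine continuous_pi (fun x => ?_)
    exact continuous_const.mul ((continuous_apply x).comp continuous_subtype_val)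

/-- the action of `ℝ` on `E0` -/
noncomputable def al (p : ℝ × E0) : E0 :=
  ⟨fun x => Real.exp (x * p.1) * (p.2 : ℝ → ℝ) x, shf_mem _ _ p.2.2⟩

lemma al_apply (s : ℝ) (z : E0) (x : ℝ) :
    (al (s, z) : ℝ → ℝ) x = Real.exp (x * s) * (z : ℝ → ℝ) x := rfl

lemma A_apply (z : E0) (x : ℝ) : (A z : ℝ → ℝ) x = x * (z : ℝ → ℝ) x := rfl

lemma al_cont : Continuous al := by
  refine Continuous.subtype_mk ?_ _
  refine continuous_pi (fun x => ?_)
  refine Continuous.mul ?_ ?_
  · exact Real.continuous_exp.comp (continuous_const.mul continuous_fst)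
  · exact (continuous_apply x).comp (continuous_subtype_val.comp continuous_snd)

lemma al_bc (k : ℕ) : BC k (ℝ × E0) E0 al := by
  induction k with
  | zero => exact al_cont
  | succ k ih =>
    refine ⟨al_cont, fun p => al (p.1.1, p.2.2) + p.2.1 • al (p.1.1, A p.1.2), ?_, ?_⟩
    · rintro ⟨s, y⟩ ⟨s', y'⟩
      rw [tendsto_subtype_rng, tendsto_pi_nhds]
      intro x
      have h1 : HasDerivAt (fun t : ℝ => Real.exp (x * (s + t * s')) *
          ((y : ℝ → ℝ) x + t * (y' : ℝ → ℝ) x))
          (Real.exp (x * s) * (x * s') * (y : ℝ → ℝ) x + Real.exp (x * s) * (y' : ℝ → ℝ) x) 0 := by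
        have ha : HasDerivAt (fun t : ℝ => x * (s + t * s')) (x * s') 0 := by
          have := (((hasDerivAt_id (0 : ℝ)).mul_const s').const_add s).const_mul x
          simpa using this
        have hb : HasDerivAt (fun t : ℝ => (y : ℝ → ℝ) x + t * (y' : ℝ → ℝ) x)
            ((y' : ℝ → ℝ) x) 0 := by
          have := (((hasDerivAt_id (0 : ℝ)).mul_const ((y' : ℝ → ℝ) x)).const_add
            ((y : ℝ → ℝ) x))
          simpa using this
        have h3 := ha.exp.mul hb
        refine HasDerivAt.congr_deriv h3 ?_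
        simp
      have h2 := h1.tendsto_slope_zero
      refine (Tendsto.congr (fun t => ?_) h2).trans (le_of_eq ?_)
      · simp only [zero_add, zero_mul, add_zero]
        rfl
      · congr 1
        show _ = Real.exp (x * s) * (y' : ℝ → ℝ) x + s' * (Real.exp (x * s) * (x * (y : ℝ → ℝ) x))
        ring
    · let L1 : (ℝ × E0) × (ℝ × E0) →L[ℝ] ℝ × E0 :=
        ((ContinuousLinearMap.fst ℝ ℝ E0).comp (ContinuousLinearMap.fst ℝ (ℝ × E0) (ℝ × E0))).prod
        ((ContinuousLinearMap.snd ℝ ℝ E0).comp (ContinuousLinearMap.snd ℝ (ℝ × E0) (ℝ × E0)))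
      let L2 : (ℝ × E0) × (ℝ × E0) →L[ℝ] ℝ × E0 :=
        ((ContinuousLinearMap.fst ℝ ℝ E0).comp (ContinuousLinearMap.fst ℝ (ℝ × E0) (ℝ × E0))).prod
        (A.comp ((ContinuousLinearMap.snd ℝ ℝ E0).comp
          (ContinuousLinearMap.fst ℝ (ℝ × E0) (ℝ × E0))))
      let L3 : (ℝ × E0) × (ℝ × E0) →L[ℝ] ℝ :=
        ((ContinuousLinearMap.fst ℝ ℝ E0).comp (ContinuousLinearMap.snd ℝ (ℝ × E0) (ℝ × E0)))
      exact bc_add (bc_comp_lin ih L1) (bc_smul (bc_lin k L3) (bc_comp_lin ih L2))

lemma al_zero (y : E0) : al (0, y) = y := by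
  ext x
  simp [al_apply]

lemma al_al (s t : ℝ) (y : E0) : al (s, al (t, y)) = al (s + t, y) := by
  ext x
  rw [al_apply, al_apply, al_apply, mul_add, Real.exp_add, mul_assoc]

lemma al_add (s : ℝ) (y z : E0) : al (s, y + z) = al (s, y) + al (s, z) := by
  ext x
  show Real.exp (x * s) * ((y : ℝ → ℝ) x + (z : ℝ → ℝ) x) =
    Real.exp (x * s) * (y : ℝ → ℝ) x + Real.exp (x * s) * (z : ℝ → ℝ) x
  rw [mul_add]

lemma al_neg (s : ℝ) (y : E0) : al (s, -y) = - al (s, y) := by
  ext x
  show Real.exp (x * s) * (-(y : ℝ → ℝ) x) = -(Real.exp (x * s) * (y : ℝ → ℝ) x)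
  rw [mul_neg]

/-- the semidirect product `E0 ⋊ ℝ` -/
noncomputable def GG : ChartLieGroup where
  E := E0 × ℝ
  mul p q := (p.1 + al (p.2, q.1), p.2 + q.2)
  one := (0, 0)
  inv p := (- al (- p.2, p.1), - p.2)
  mul_assoc := by
    rintro ⟨x, s⟩ ⟨y, t⟩ ⟨z, u⟩
    simp only [al_add, al_al, add_assoc]
  one_mul := by
    rintro ⟨x, s⟩
    simp only [al_zero, zero_add]
  mul_one := by
    rintro ⟨x, s⟩
    have : al (s, 0) = 0 := by
      ext x
      rw [al_apply]
      simp
    simp only [this, add_zero]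
  inv_mul := by
    rintro ⟨x, s⟩
    simp only [neg_add_cancel]
  smooth_mul := by
    intro k
    let L1 : (E0 × ℝ) × (E0 × ℝ) →L[ℝ] ℝ × E0 :=
      ((ContinuousLinearMap.snd ℝ E0 ℝ).comp (ContinuousLinearMap.fst ℝ (E0 × ℝ) (E0 × ℝ))).prod
      ((ContinuousLinearMap.fst ℝ E0 ℝ).comp (ContinuousLinearMap.snd ℝ (E0 × ℝ) (E0 × ℝ)))
    let L2 : (E0 × ℝ) × (E0 × ℝ) →L[ℝ] E0 × ℝ :=
      ((ContinuousLinearMap.fst ℝ E0 ℝ).comp (ContinuousLinearMap.fst ℝ (E0 × ℝ) (E0 × ℝ))).prod
      ((ContinuousLinearMap.snd ℝ E0 ℝ).comp (ContinuousLinearMap.fst ℝ (E0 × ℝ) (E0 × ℝ)) +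
       (ContinuousLinearMap.snd ℝ E0 ℝ).comp (ContinuousLinearMap.snd ℝ (E0 × ℝ) (E0 × ℝ)))
    have h1 := bc_lin_comp (bc_comp_lin (al_bc k) L1) (ContinuousLinearMap.inl ℝ E0 ℝ)
    have h2 := bc_add (bc_lin k L2) h1
    have h3 : (fun p : (E0 × ℝ) × (E0 × ℝ) => (p.1.1 + al (p.1.2, p.2.1), p.1.2 + p.2.2)) =
        fun x => L2 x + (ContinuousLinearMap.inl ℝ E0 ℝ) (al (L1 x)) := by
      funext p
      refine Prod.ext rfl ?_
      show _ = (_ + _) + (0 : ℝ)
      rw [add_zero]
      rfl
    rw [← h3] at h2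
    exact h2
  smooth_inv := by
    intro k
    let L1 : (E0 × ℝ) →L[ℝ] ℝ × E0 :=
      (-(ContinuousLinearMap.snd ℝ E0 ℝ)).prod (ContinuousLinearMap.fst ℝ E0 ℝ)
    let L2 : (E0 × ℝ) →L[ℝ] E0 × ℝ :=
      (0 : (E0 × ℝ) →L[ℝ] E0).prod (-(ContinuousLinearMap.snd ℝ E0 ℝ))
    have h1 := bc_lin_comp (bc_comp_lin (al_bc k) L1) (-(ContinuousLinearMap.inl ℝ E0 ℝ))
    have h2 := bc_add (bc_lin k L2) h1
    have h3 : (fun p : (E0 × ℝ) => (- al (- p.2, p.1), - p.2)) =
        fun x => L2 x + (-(ContinuousLinearMap.inl ℝ E0 ℝ)) (al (L1 x)) := by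
      funext p
      refine Prod.ext ?_ ?_
      · show _ = 0 + - _
        rw [zero_add]
        rfl
      · show _ = _ + -(0 : ℝ)
        rw [neg_zero, add_zero]
        rfl
    rw [← h3] at h2
    exact h2

/-- the additive group of the reals -/
noncomputable def HH : ChartLieGroup where
  E := ℝ
  mul x y := x + y
  one := 0
  inv x := - x
  mul_assoc := add_assoc
  one_mul := zero_add
  mul_one := add_zero
  inv_mul := neg_add_cancel
  smooth_mul := fun k => bc_lin k (ContinuousLinearMap.fst ℝ ℝ ℝ + ContinuousLinearMap.snd ℝ ℝ ℝ)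
  smooth_inv := fun k => bc_lin k (-(ContinuousLinearMap.id ℝ ℝ))

/-- the continuous homomorphism -/
noncomputable def phi (t : ℝ) : E0 × ℝ := (⟨fun x => Real.exp (x * t) - 1, diff_mem t⟩, t)

/-- There are Lie groups `H`, `G` (modelled on Hausdorff locally convex spaces) and a continuous
homomorphism `H → G` which is not of class `C^1`. -/
theorem result : ∃ (H G : ChartLieGroup) (φ : H.E → G.E),
    (∀ x y, φ (H.mul x y) = G.mul (φ x) (φ y)) ∧ Continuous φ ∧ ¬ BC 1 H.E G.E φ := by
  refine ⟨HH, GG, phi, ?_, ?_, ?_⟩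
  · show ∀ s t : ℝ, phi (s + t) = ((phi s).1 + al ((phi s).2, (phi t).1), s + t)
    intro s t
    show phi (s + t) = ((phi s).1 + al ((phi s).2, (phi t).1), s + t)
    refine Prod.ext ?_ rfl
    ext x
    show Real.exp (x * (s + t)) - 1 = (Real.exp (x * s) - 1) +
      Real.exp (x * s) * (Real.exp (x * t) - 1)
    rw [mul_add, Real.exp_add]
    ring
  · show Continuous phi
    refine Continuous.prodMk ?_ continuous_id
    refine Continuous.subtype_mk ?_ _
    refine continuous_pi (fun x => ?_)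
    fun_prop
  · rintro ⟨-, df, h2, -⟩
    have h3 : Tendsto (fun t : ℝ => t⁻¹ • (phi (0 + t • (1 : ℝ)) - phi 0)) (𝓝[≠] 0)
      (𝓝 (df ((0 : ℝ), (1 : ℝ)))) := h2 (0 : ℝ) (1 : ℝ)
    have h4 : (fun x : ℝ => x) = ((df ((0 : ℝ), (1 : ℝ)) : E0 × ℝ).1 : ℝ → ℝ) := by
      funext x
      have h5 : Tendsto (fun t : ℝ => ((t⁻¹ • (phi (0 + t • (1 : ℝ)) - phi 0) : E0 × ℝ).1 : ℝ → ℝ) x)
          (𝓝[≠] 0) (𝓝 (((df ((0 : ℝ), (1 : ℝ)) : E0 × ℝ).1 : ℝ → ℝ) x)) := by
        have hc : Continuous (fun p : E0 × ℝ => (p.1 : ℝ → ℝ) x) :=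
          (continuous_apply x).comp (continuous_subtype_val.comp continuous_fst)
        exact (hc.tendsto _).comp h3
      have h6 : HasDerivAt (fun t : ℝ => Real.exp (x * t) - 1) x 0 := by
        have ha : HasDerivAt (fun t : ℝ => x * t) x 0 := by
          simpa using (hasDerivAt_id (0 : ℝ)).const_mul x
        simpa using ha.exp.sub_const 1
      have h7 := h6.tendsto_slope_zero
      refine tendsto_nhds_unique h7 (Tendsto.congr (fun t => ?_) h5)
      show t⁻¹ * ((Real.exp (x * (0 + t * 1)) - 1) - (Real.exp (x * 0) - 1)) =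
        t⁻¹ * ((Real.exp (x * (0 + t)) - 1) - (Real.exp (x * 0) - 1))
      rw [mul_one]
    exact id_not_mem (h4 ▸ (df ((0 : ℝ), (1 : ℝ)) : E0 × ℝ).1.2)

end Pool.Agent.Results.MP_ed087a_al.NotSmooth
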